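import Mathlib
import Pool.Agent.U707.PT.Stm

/-!
# Project PT, package SUB

Subquotients of mw pure modules with balanced submodules are mw pure.
-/

set_option autoImplicit false

open Polynomial Module

namespace Pool.Agent.U49.PT

open Pool.Agent.U707.PT

section
variable {E : Type} [Field E] [CharZero E] {R : Type} [Ring R] [Algebra E R]
variable {M : Type} [AddCommGroup M] [Module E M] [Module R M] [IsScalarTower E R M]

theorem act_eq (r : R) : act (E := E) M r = Algebra.lsmul E E M r := by
  ext x; rfl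

theorem act_aeval (F : R) (P : E[X]) (x : M) :
    aeval (act (E := E) M F) P x = (aeval F P : R) • x := by
  rw [act_eq, Polynomial.aeval_algHom_apply]; rfl

theorem act_pow (ν : R) (k : ℕ) (x : M) : ((act (E := E) M ν) ^ k) x = ν ^ k • x := by
  rw [act_eq, ← map_pow]; rfl

theorem mem_wt {q : ℕ} {F : R} {c : ℤ} {x : M} : x ∈ wt q (act (E := E) M F) c ↔
    ∃ f : ℚ[X], IsWeil q c f ∧ (aeval F (f.map (algebraMap ℚ E)) : R) • x = 0 := by
  constructor
  · rintro ⟨f, hf, h⟩
    exact ⟨f, hf, by rw [← act_aeval]; exact h⟩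
  · rintro ⟨f, hf, h⟩
    exact ⟨f, hf, by rw [← act_aeval] at h; exact h⟩

theorem proj [FiniteDimensional E M] (hP : S_PROJ) {q : ℕ} (hq : 1 < q) (F : R)
    (h : (⨆ c, wt q (act (E := E) M F) c) = ⊤) :
    ∃ P : ℤ → R, ∀ c d, ∀ x ∈ wt q (act (E := E) M F) d, P c • x = if d = c then x else 0 := by
  obtain ⟨p, hp⟩ := hP E Unit (fun _ => M) (fun _ => act (E := E) M F) q hq (fun _ => h)
  refine ⟨fun c => aeval F ((p c).map (algebraMap ℚ E)), fun c d x hx => ?_⟩
  rw [← act_aeval]
  exact hp () c d x hx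

theorem indep {q : ℕ} {F : R} {P : ℤ → R}
    (hP : ∀ c d, ∀ x ∈ wt q (act (E := E) M F) d, P c • x = if d = c then x else 0) :
    iSupIndep (fun c => wt q (act (E := E) M F) c) := by
  intro c
  rw [Submodule.disjoint_def]
  intro x hx hx2
  have h1 : P c • x = x := by rw [hP c c x hx, if_pos rfl]
  have h2 : P c • x = 0 := by
    have : ∀ y ∈ (⨆ d, ⨆ (_ : d ≠ c), wt q (act (E := E) M F) d), P c • y = 0 := by
      intro y hy
      have hle : (⨆ d, ⨆ (_ : d ≠ c), wt q (act (E := E) M F) d) ≤
          LinearMap.ker (act (E := E) M (P c)) := by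
        refine iSup_le fun d => iSup_le fun hd => ?_
        intro z hz
        rw [LinearMap.mem_ker]
        change P c • z = 0
        rw [hP c d z hz, if_neg hd]
      exact LinearMap.mem_ker.mp (hle hy)
    exact this x hx2
  rw [← h1, h2]

theorem fin_support [FiniteDimensional E M] {q : ℕ} {F : R} {P : ℤ → R}
    (hP : ∀ c d, ∀ x ∈ wt q (act (E := E) M F) d, P c • x = if d = c then x else 0) :
    {c | wt q (act (E := E) M F) c ≠ ⊥}.Finite :=
  WellFoundedGT.finite_ne_bot_of_iSupIndep (indep hP)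

theorem proj_mem {q : ℕ} {F : R} {P : ℤ → R}
    (hP : ∀ c d, ∀ x ∈ wt q (act (E := E) M F) d, P c • x = if d = c then x else 0)
    (h : (⨆ c, wt q (act (E := E) M F) c) = ⊤) (c : ℤ) (x : M) :
    P c • x ∈ wt q (act (E := E) M F) c := by
  have hx : x ∈ ⨆ c, wt q (act (E := E) M F) c := by rw [h]; trivial
  have hle : (⨆ c, wt q (act (E := E) M F) c) ≤
      (wt q (act (E := E) M F) c).comap (act (E := E) M (P c)) := by
    refine iSup_le fun d => ?_
    intro z hz
    rw [Submodule.mem_comap]
    change P c • z ∈ _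
    rw [hP c d z hz]
    split_ifs with hd
    · rw [← hd]; exact hz
    · exact zero_mem _
  exact hle hx

theorem sum_proj [FiniteDimensional E M] {q : ℕ} {F : R} {P : ℤ → R}
    (hP : ∀ c d, ∀ x ∈ wt q (act (E := E) M F) d, P c • x = if d = c then x else 0)
    (h : (⨆ c, wt q (act (E := E) M F) c) = ⊤) (x : M) :
    x = ∑ c ∈ (fin_support hP).toFinset, P c • x := by
  have hx : x ∈ ⨆ c, wt q (act (E := E) M F) c := by rw [h]; trivial
  have hle : (⨆ c, wt q (act (E := E) M F) c) ≤
      LinearMap.ker (LinearMap.id - ∑ c ∈ (fin_support hP).toFinset, act (E := E) M (P c)) := by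
    refine iSup_le fun d => ?_
    intro z hz
    rw [LinearMap.mem_ker, LinearMap.sub_apply, LinearMap.sum_apply, LinearMap.id_apply, sub_eq_zero]
    by_cases hd : wt q (act (E := E) M F) d = ⊥
    · rw [hd] at hz
      have hz0 : z = 0 := (Submodule.mem_bot E).mp hz
      rw [hz0]; simp
    · have h1 : ∀ c ∈ (fin_support hP).toFinset, act (E := E) M (P c) z = if d = c then z else 0 :=
        fun c _ => hP c d z hz
      rw [Finset.sum_congr rfl h1, Finset.sum_ite_eq, if_pos]
      rw [Set.Finite.mem_toFinset]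
      exact hd
  have h2 := LinearMap.mem_ker.mp (hle hx)
  rw [LinearMap.sub_apply, LinearMap.sum_apply, LinearMap.id_apply, sub_eq_zero] at h2
  exact h2

/-- the dimensions of the opposite parts of a submodule agree -/
theorem dims [FiniteDimensional E M] {q : ℕ} {F ν : R} {m : ℤ} {P : ℤ → R}
    (hP : ∀ c d, ∀ x ∈ wt q (act (E := E) M F) d, P c • x = if d = c then x else 0)
    (hb : ∀ k : ℕ, Set.BijOn ((act (E := E) M ν) ^ k) (wt q (act (E := E) M F) (m + k))
      (wt q (act (E := E) M F) (m - k)))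
    (hbal : Balanced (E := E) M q F m) (W : Submodule R M) (k : ℕ) (x : M) (hxW : x ∈ W)
    (hx : x ∈ wt q (act (E := E) M F) (m - k)) :
    ∃ x' ∈ W, x' ∈ wt q (act (E := E) M F) (m + k) ∧ ν ^ k • x' = x := by
  classical
  obtain ⟨d, hd⟩ : ∃ d : ℤ → ℤ, ∀ c, d c =
    (finrank E (W.restrictScalars E ⊓ wt q (act (E := E) M F) c : Submodule E M) : ℤ) :=
    ⟨_, fun _ => rfl⟩
  have hmap : ∀ k : ℕ, ∀ x ∈ (W.restrictScalars E ⊓ wt q (act (E := E) M F) (m + k) :
      Submodule E M), ((act (E := E) M ν) ^ k) x ∈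
        (W.restrictScalars E ⊓ wt q (act (E := E) M F) (m - k) : Submodule E M) := by
    intro k x hx
    refine ⟨?_, (hb k).mapsTo hx.2⟩
    rw [act_pow]
    exact W.smul_mem _ hx.1
  have hinj : ∀ k : ℕ, Function.Injective (((act (E := E) M ν) ^ k).restrict (hmap k)) := by
    intro k x y hxy
    have h1 : ((act (E := E) M ν) ^ k) (x : M) = ((act (E := E) M ν) ^ k) (y : M) :=
      congrArg Subtype.val hxy
    exact Subtype.ext ((hb k).injOn x.2.2 y.2.2 h1)
  have hle : ∀ k : ℕ, d (m + k) ≤ d (m - k) := by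
    intro k
    rw [hd, hd]
    exact_mod_cast LinearMap.finrank_le_finrank_of_injective (hinj k)
  have hle' : ∀ j : ℤ, 0 ≤ j → d (m + j) ≤ d (m - j) := by
    intro j hj
    obtain ⟨k, rfl⟩ := Int.eq_ofNat_of_zero_le hj
    exact hle k
  have hfin : {c | d c ≠ 0}.Finite := by
    refine (fin_support hP).subset ?_
    intro c hc hbot
    apply hc
    rw [hd, hbot, inf_bot_eq, finrank_bot]
    rfl
  have hs1 : ∑ᶠ c : ℤ, (c - m) * d c = 0 := by
    have := hbal W
    simp only [← hd] at this
    exact this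
  have hs2 : ∑ᶠ c : ℤ, (2 * m - c - m) * d (2 * m - c) = 0 := by
    rw [← hs1]
    exact finsum_comp_equiv (Equiv.subLeft (2 * m)) (f := fun c : ℤ => (c - m) * d c)
  have hf1 : (Function.support fun c : ℤ => (c - m) * d c).Finite := by
    refine hfin.subset ?_
    intro c hc hc2
    apply hc
    simp only [hc2, mul_zero]
  have hf2 : (Function.support fun c : ℤ => (2 * m - c - m) * d (2 * m - c)).Finite := by
    refine (hfin.preimage (f := fun c : ℤ => 2 * m - c) ?_).subset ?_
    · intro a _ b _ hab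
      simp only at hab
      omega
    · intro c hc hc2
      apply hc
      simp only [hc2, mul_zero]
  have hs3 : ∑ᶠ c : ℤ, ((c - m) * d c + (2 * m - c - m) * d (2 * m - c)) = 0 := by
    rw [finsum_add_distrib hf1 hf2, hs1, hs2, add_zero]
  have hterm : ∀ c : ℤ, (c - m) * d c + (2 * m - c - m) * d (2 * m - c) ≤ 0 := by
    intro c
    have e : (c - m) * d c + (2 * m - c - m) * d (2 * m - c) =
      (c - m) * (d c - d (2 * m - c)) := by ring
    rw [e]
    rcases le_total m c with h | h
    · have h1 := hle' (c - m) (by omega)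
      have e1 : m + (c - m) = c := by ring
      have e2 : m - (c - m) = 2 * m - c := by ring
      rw [e1, e2] at h1
      exact mul_nonpos_of_nonneg_of_nonpos (by omega) (by omega)
    · have h1 := hle' (m - c) (by omega)
      have e1 : m + (m - c) = 2 * m - c := by ring
      have e2 : m - (m - c) = c := by ring
      rw [e1, e2] at h1
      exact mul_nonpos_of_nonpos_of_nonneg (by omega) (by omega)
  have hall : ∀ c : ℤ, (c - m) * d c + (2 * m - c - m) * d (2 * m - c) = 0 := by
    intro c
    by_contra hc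
    have hf3 : (Function.support fun c : ℤ =>
        (c - m) * d c + (2 * m - c - m) * d (2 * m - c)).Finite :=
      (hf1.union hf2).subset (Function.support_add _ _)
    rw [finsum_eq_sum_of_support_subset _ (s := hf3.toFinset) (by
      rw [Set.Finite.coe_toFinset])] at hs3
    have := (Finset.sum_eq_zero_iff_of_nonpos (fun c _ => hterm c)).mp hs3 c (by
      rw [Set.Finite.mem_toFinset]; exact hc)
    exact hc this
  have heq : d (m + k) = d (m - k) := by
    rcases Nat.eq_zero_or_pos k with hk | hk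
    · subst hk; simp
    · have h1 := hall (m + k)
      have e1 : 2 * m - (m + (k : ℤ)) = m - k := by ring
      have e2 : (m + (k : ℤ) - m) * d (m + k) + (m - k - m) * d (m - k) =
        (k : ℤ) * (d (m + k) - d (m - k)) := by ring
      rw [e1, e2] at h1
      rcases mul_eq_zero.mp h1 with h2 | h2
      · omega
      · omega
  have hfr : finrank E (W.restrictScalars E ⊓ wt q (act (E := E) M F) (m + k) : Submodule E M) =
      finrank E (W.restrictScalars E ⊓ wt q (act (E := E) M F) (m - k) : Submodule E M) := by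
    rw [hd, hd] at heq
    exact_mod_cast heq
  have hsurj := (LinearMap.injective_iff_surjective_of_finrank_eq_finrank hfr).mp (hinj k)
  obtain ⟨x', hx'⟩ := hsurj ⟨x, hxW, hx⟩
  refine ⟨x', x'.2.1, x'.2.2, ?_⟩
  rw [← act_pow (E := E)]
  exact congrArg Subtype.val hx'

end

theorem t_SUB (hP : S_PROJ) : S_SUB := by
  intro E R _ _ _ _ M U _ _ _ _ _ _ _ _ _ _ q F ν m hq _ hM hbal hsub
  obtain ⟨B, f, hf⟩ := hsub
  obtain ⟨P, hPM⟩ := proj (E := E) (M := M) hP hq F hM.1
  -- the map respects the weights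
  have hmapw : ∀ c : ℤ, ∀ x : B, (x : M) ∈ wt q (act (E := E) M F) c →
      f x ∈ wt q (act (E := E) U F) c := by
    intro c x hx
    rw [mem_wt] at hx ⊢
    obtain ⟨g, hg, hgx⟩ := hx
    refine ⟨g, hg, ?_⟩
    rw [← map_smul]
    have : (aeval F (g.map (algebraMap ℚ E)) : R) • x = 0 := Subtype.ext hgx
    rw [this, map_zero]
  -- components of the elements of `B`
  have hcomp : ∀ x : B, f x = ∑ c ∈ (fin_support hPM).toFinset, f (P c • x) := by
    intro x
    rw [← map_sum]
    congr 1
    apply Subtype.ext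
    rw [AddSubmonoidClass.coe_finsetSum]
    exact sum_proj hPM hM.1 (x : M)
  have htop : (⨆ c, wt q (act (E := E) U F) c) = ⊤ := by
    rw [eq_top_iff]
    rintro y -
    obtain ⟨x, rfl⟩ := hf y
    rw [hcomp x]
    refine Submodule.sum_mem _ fun c _ => ?_
    refine Submodule.mem_iSup_of_mem c (hmapw c _ ?_)
    exact proj_mem hPM hM.1 c (x : M)
  obtain ⟨Q, hQ⟩ := proj (E := E) (M := U) hP hq F htop
  have hlift : ∀ c : ℤ, ∀ y ∈ wt q (act (E := E) U F) c, ∃ x : B,
      (x : M) ∈ wt q (act (E := E) M F) c ∧ f x = y := by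
    intro c y hy
    obtain ⟨x, rfl⟩ := hf y
    refine ⟨P c • x, proj_mem hPM hM.1 c (x : M), ?_⟩
    have h1 : Q c • f x = f x := by rw [hQ c c _ hy, if_pos rfl]
    have h2 : Q c • f x = ∑ d ∈ (fin_support hPM).toFinset, if d = c then f (P d • x) else 0 := by
      rw [hcomp x, Finset.smul_sum]
      refine Finset.sum_congr rfl fun d _ => ?_
      exact hQ c d _ (hmapw d _ (proj_mem hPM hM.1 d (x : M)))
    rw [h1, Finset.sum_ite_eq'] at h2
    split_ifs at h2 with hc
    · exact h2.symm
    · rw [h2]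
      have h3 : wt q (act (E := E) M F) c = ⊥ := by
        by_contra h4
        exact hc ((Set.Finite.mem_toFinset _).mpr h4)
      have h4 : P c • (x : M) = 0 := by
        have := proj_mem hPM hM.1 c (x : M)
        rw [h3] at this
        exact (Submodule.mem_bot E).mp this
      have h5 : P c • x = 0 := Subtype.ext h4
      rw [h5, map_zero]
  refine ⟨htop, fun k => ⟨?_, ?_, ?_⟩⟩
  · -- maps to
    intro y hy
    obtain ⟨x, hx, rfl⟩ := hlift _ y hy
    change ((act (E := E) U ν) ^ k) (f x) ∈ wt q (act (E := E) U F) (m - k)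
    rw [act_pow, ← map_smul]
    refine hmapw _ _ ?_
    have := (hM.2 k).mapsTo hx
    change ((act (E := E) M ν) ^ k) (x : M) ∈ wt q (act (E := E) M F) (m - k) at this
    rw [act_pow] at this
    exact this
  · -- injective
    have key : ∀ y ∈ wt q (act (E := E) U F) (m + k), ((act (E := E) U ν) ^ k) y = 0 → y = 0 := by
      intro y hy hy0
      obtain ⟨x, hx, rfl⟩ := hlift _ y hy
      rw [act_pow, ← map_smul] at hy0
      have h1 : ν ^ k • (x : M) ∈ (LinearMap.ker f).map B.subtype :=
        ⟨ν ^ k • x, hy0, rfl⟩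
      have h2 : ν ^ k • (x : M) ∈ wt q (act (E := E) M F) (m - k) := by
        have := (hM.2 k).mapsTo hx
        change ((act (E := E) M ν) ^ k) (x : M) ∈ wt q (act (E := E) M F) (m - k) at this
        rw [act_pow] at this
        exact this
      obtain ⟨a, ha, ha2, ha3⟩ := dims hPM hM.2 hbal ((LinearMap.ker f).map B.subtype) k _ h1 h2
      have h3 : a = x := by
        refine (hM.2 k).injOn ha2 hx ?_
        rw [act_pow, act_pow]
        exact ha3
      obtain ⟨b, hb, hb2⟩ := ha
      have h4 : b = x := Subtype.ext (hb2.trans h3)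
      rw [← h4]
      exact hb
    intro y₁ h₁ y₂ h₂ h12
    rw [← sub_eq_zero]
    refine key _ (Submodule.sub_mem _ h₁ h₂) ?_
    rw [map_sub, h12, sub_self]
  · -- surjective
    intro y hy
    obtain ⟨x, hx, rfl⟩ := hlift _ y hy
    obtain ⟨a, ha, ha2, ha3⟩ := dims hPM hM.2 hbal B k _ x.2 hx
    refine ⟨f ⟨a, ha⟩, hmapw _ ⟨a, ha⟩ ha2, ?_⟩
    rw [act_pow, ← map_smul]
    congr 1
    exact Subtype.ext ha3

end Pool.Agent.U49.PT
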